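import Pool.Agent.J4H48.HK.Stm

/-!
Project HK of helper48, job RED: from the maps to the data.
-/

set_option autoImplicit false

open Polynomial NumberField

namespace Pool.Agent.J4H72.HK

open Pool.Agent.J4H48.HK

noncomputable section

/-- the map over a field -/
def hen {L : Type} [Field L] (f : L → L) (b e k : L) (P : L × L) : L × L :=
  (P.2, (f P.2 + k - e * P.1) / b)

lemma seq_rel {L : Type} [Field L] (f : L → L) (b e k : L) (hb : b ≠ 0) (P : L × L) (i : ℕ) :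
    b * ((hen f b e k)^[i + 2] P).1 =
      f ((hen f b e k)^[i + 1] P).1 + k - e * ((hen f b e k)^[i] P).1 := by
  rw [Function.iterate_succ_apply' _ (i + 1), Function.iterate_succ_apply' _ i]
  simp only [hen]
  field_simp

lemma seq_per {L : Type} [Field L] (f : L → L) (b e k : L) (P : L × L) (n : ℕ)
    (h : (hen f b e k)^[n] P = P) (i : ℕ) :
    ((hen f b e k)^[i + n] P).1 = ((hen f b e k)^[i] P).1 := by
  rw [Function.iterate_add_apply, h]

theorem t_RED : S_SIZE → S_INT → S_NORM → S_RED := by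
  intro hSize hInt hNorm K _ _ F b e B hd hb
  classical
  set d := F.natDegree with hdd
  set a : 𝓞 K := F.leadingCoeff with ha
  have hF0 : F ≠ 0 := by
    intro h
    rw [hdd, h, natDegree_zero] at hd
    omega
  have ha0 : a ≠ 0 := leadingCoeff_ne_zero.2 hF0
  set GZ : (𝓞 K)[X] := F.integralNormalization with hGZ
  have hGZm : GZ.Monic := monic_integralNormalization hF0
  have hGZd : GZ.natDegree = d := natDegree_integralNormalization
  set τ' : (K →+* ℂ) → (𝓞 K →+* ℂ) := fun τ => τ.comp (algebraMap (𝓞 K) K) with hτ'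
  have hτinj : ∀ τ x, x ≠ 0 → τ' τ x ≠ 0 := by
    intro τ x hx h
    apply hx
    have h1 : τ (algebraMap (𝓞 K) K x) = 0 := h
    have h2 : algebraMap (𝓞 K) K x = 0 := (map_eq_zero τ).1 h1
    exact (FaithfulSMul.algebraMap_injective (𝓞 K) K) (by rw [h2, map_zero])
  set G : (K →+* ℂ) → ℂ[X] := fun τ => GZ.map (τ' τ) with hG
  have hGm : ∀ τ, (G τ).Monic := fun τ => hGZm.map _
  have hGd : ∀ τ, (G τ).natDegree = d := by
    intro τ
    rw [hG]
    simp only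
    rw [hGZm.natDegree_map, hGZd]
  set A : (K →+* ℂ) → ℂ := fun τ => τ' τ a ^ (d - 1) with hA
  set α : (K →+* ℂ) → ℂ := fun τ => τ' τ (a ^ (d - 2) * b) with hα
  set β : (K →+* ℂ) → ℂ := fun τ => τ' τ (a ^ (d - 2) * e) with hβ
  have hA0 : ∀ τ, A τ ≠ 0 := fun τ => pow_ne_zero _ (hτinj τ a ha0)
  have hS : ∀ τ : K →+* ℂ, ∃ R r : ℝ, 1 ≤ R ∧ 1 ≤ r ∧
      ∀ γ : ℝ, R ≤ |γ| → ∀ W : Finset ℂ,
      (∀ w ∈ W, ∃ u ∈ W, ∃ v ∈ W, ‖(G τ).eval w + A τ * (γ : ℂ)‖ ≤ (‖α τ‖ + ‖β τ‖) * max ‖u‖ ‖v‖) →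
      ∀ w ∈ W, 1 / r * |γ| ^ (1 / (d : ℝ)) ≤ ‖w‖ ∧ ‖w‖ ≤ r * |γ| ^ (1 / (d : ℝ)) ∧
        ‖(G τ).eval w + A τ * (γ : ℂ)‖ ≤ (‖α τ‖ + ‖β τ‖) * r * |γ| ^ (1 / (d : ℝ)) :=
    fun τ => hSize (G τ) d hd (hGm τ) (hGd τ) (A τ) (hA0 τ) (‖α τ‖ + ‖β τ‖) (by positivity)
  choose Rf rf hR1 hr1 hRr using hS
  have hRle : ∀ τ, Rf τ ≤ 1 + ∑ τ, Rf τ := by
    intro τ
    have := Finset.single_le_sum (f := Rf) (fun t _ => by linarith [hR1 t]) (Finset.mem_univ τ)
    linarith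
  have hrle : ∀ τ, rf τ ≤ 1 + ∑ τ, rf τ := by
    intro τ
    have := Finset.single_le_sum (f := rf) (fun t _ => by linarith [hr1 t]) (Finset.mem_univ τ)
    linarith
  have hcle : ∀ τ, (‖α τ‖ + ‖β τ‖) * rf τ ≤ ∑ τ, (‖α τ‖ + ‖β τ‖) * rf τ := by
    intro τ
    exact Finset.single_le_sum (f := fun τ => (‖α τ‖ + ‖β τ‖) * rf τ)
      (fun t _ => mul_nonneg (by positivity) (by linarith [hr1 t])) (Finset.mem_univ τ)
  have hRs : 0 ≤ ∑ τ, Rf τ := Finset.sum_nonneg fun t _ => by linarith [hR1 t]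
  have hrs : 0 ≤ ∑ τ, rf τ := Finset.sum_nonneg fun t _ => by linarith [hr1 t]
  have hcs : 0 ≤ ∑ τ, (‖α τ‖ + ‖β τ‖) * rf τ :=
    Finset.sum_nonneg fun t _ => mul_nonneg (by positivity) (by linarith [hr1 t])
  refine ⟨1 + ∑ τ, Rf τ, ∑ τ, (‖α τ‖ + ‖β τ‖) * rf τ, 1 + ∑ τ, rf τ, by linarith, hcs, by linarith,
    G, A, α, β, hGm, hGd, hA0, ?_⟩
  intro k hk hper
  obtain ⟨L, hfin, hLB, P, hP1, hP2, n, hn, hPn⟩ := hper
  haveI : FiniteDimensional K L := hfin
  haveI : NumberField L := NumberField.of_module_finite K L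
  set j : 𝓞 K →+* L := (algebraMap K L).comp (algebraMap (𝓞 K) K) with hj
  have hj0 : ∀ x : 𝓞 K, x ≠ 0 → j x ≠ 0 := by
    intro x hx h
    apply hx
    have h1 : algebraMap K L (algebraMap (𝓞 K) K x) = 0 := h
    have h2 : algebraMap (𝓞 K) K x = 0 := (map_eq_zero (algebraMap K L)).1 h1
    exact (FaithfulSMul.algebraMap_injective (𝓞 K) K) (by rw [h2, map_zero])
  set f : L → L := fun y => F.eval₂ j y with hf
  -- the orbit in L
  set ι : L × L → (AlgebraicClosure K) × (AlgebraicClosure K) := fun Q => ((Q.1 : (AlgebraicClosure K)), (Q.2 : (AlgebraicClosure K))) with hι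
  have hιinj : Function.Injective ι := by
    intro Q Q' h
    have h1 := congrArg Prod.fst h
    have h2 := congrArg Prod.snd h
    exact Prod.ext (Subtype.ext h1) (Subtype.ext h2)
  have hcoe : ∀ y : L, ((f y : L) : (AlgebraicClosure K)) = aeval (y : (AlgebraicClosure K)) (F.map (algebraMap (𝓞 K) K)) := by
    intro y
    have h1 := Polynomial.aeval_algebraMap_apply (AlgebraicClosure K) y (F.map (algebraMap (𝓞 K) K))
    have h2 : aeval y (F.map (algebraMap (𝓞 K) K)) = f y := by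
      rw [aeval_def, Polynomial.eval₂_map]
    rw [h2] at h1
    exact h1.symm
  have hsemi : Function.Semiconj ι (hen f (j b) (j e) (k : L)) (henon K F b e k) := by
    intro Q
    refine Prod.ext ?_ ?_
    · rfl
    · change ((((f Q.2 + (k : L) - j e * Q.1) / (j b) : L)) : (AlgebraicClosure K)) = _
      change _ = (aeval (Q.2 : (AlgebraicClosure K)) (F.map (algebraMap (𝓞 K) K)) + (k : (AlgebraicClosure K)) -
        algebraMap K (AlgebraicClosure K) (algebraMap (𝓞 K) K e) * (Q.1 : (AlgebraicClosure K))) / algebraMap K (AlgebraicClosure K) (algebraMap (𝓞 K) K b)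
      rw [← hcoe]
      push_cast
      rfl
  set P' : L × L := (⟨P.1, hP1⟩, ⟨P.2, hP2⟩) with hP'
  have hιP : ι P' = P := rfl
  have hP'n : (hen f (j b) (j e) (k : L))^[n] P' = P' := by
    apply hιinj
    rw [(hsemi.iterate_right n) P', hιP, hPn]
  set x : ℕ → L := fun i => ((hen f (j b) (j e) (k : L))^[i] P').1 with hx
  have hxrel : ∀ i, j b * x (i + 2) = f (x (i + 1)) + (k : L) - j e * x i :=
    fun i => seq_rel f (j b) (j e) (k : L) (hj0 b hb) P' i
  have hxper : Function.Periodic x n := fun i => seq_per f (j b) (j e) (k : L) P' n hP'n i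
  -- the scaled orbit
  set z : ℕ → L := fun i => j a * x i with hz
  have hzrel : ∀ i, GZ.eval₂ j (z (i + 1)) + j a ^ (d - 1) * (k : L) =
      j (a ^ (d - 2) * b) * z (i + 2) + j (a ^ (d - 2) * e) * z i := by
    intro i
    have h1 := integralNormalization_eval₂_leadingCoeff_mul (p := F) (by omega) j (x (i + 1))
    have h2 : GZ.eval₂ j (z (i + 1)) = j a ^ (d - 1) * f (x (i + 1)) := h1
    rw [h2]
    have h3 := hxrel i
    have h4 : f (x (i + 1)) = j b * x (i + 2) + j e * x i - (k : L) := by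
      rw [h3]; ring
    rw [h4, hz]
    have h5 : d - 1 = (d - 2) + 1 := by omega
    rw [h5, pow_succ, map_mul, map_mul, map_pow]
    ring
  have hzper : Function.Periodic z n := by
    intro i
    simp only [hz]
    rw [hxper i]
  set S : Finset L := (Finset.range n).image z with hS
  have hzS : ∀ i, z i ∈ S := by
    intro i
    rw [hS, Finset.mem_image]
    refine ⟨i % n, Finset.mem_range.2 (Nat.mod_lt _ (by omega)), ?_⟩
    exact hzper.map_mod_nat i
  have hSrel : ∀ w ∈ S, ∃ u ∈ S, ∃ v ∈ S, GZ.eval₂ j w + j a ^ (d - 1) * (k : L) =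
      j (a ^ (d - 2) * b) * u + j (a ^ (d - 2) * e) * v := by
    intro w hw
    rw [hS, Finset.mem_image] at hw
    obtain ⟨i, -, rfl⟩ := hw
    refine ⟨z (i + n - 1 + 2), hzS _, z (i + n - 1), hzS _, ?_⟩
    rw [← hzrel]
    have h1 : i + n - 1 + 1 = i + n := by omega
    rw [h1, hzper i]
  have hji : ∀ y : 𝓞 K, IsIntegral ℤ (j y) := fun y => map_isIntegral_int j (Algebra.IsIntegral.isIntegral y)
  have hint := hInt L (GZ.map j) (hGZm.map _) (by rw [hGZm.natDegree_map, hGZd]; exact hd)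
    (fun i => by rw [coeff_map]; exact hji _) (j (a ^ (d - 2) * b)) (j (a ^ (d - 2) * e))
    (j a ^ (d - 1) * (k : L)) (hji _) (hji _)
    ((hji a).pow _ |>.mul (by
      have : (k : L) = algebraMap ℤ L k := by simp
      rw [this]; exact isIntegral_algebraMap)) S
    (fun w hw => by
      obtain ⟨u, hu, v, hv, h⟩ := hSrel w hw
      refine ⟨u, hu, v, hv, ?_⟩
      rw [Polynomial.eval_map]
      exact h)
  -- embeddings
  obtain ⟨σ, hσK, hσN⟩ := hNorm K L
  have hσj : ∀ τ i (y : 𝓞 K), σ τ i (j y) = τ' τ y := fun τ i y => hσK τ i _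
  have hσ : ∀ τ i (w : L), σ τ i (GZ.eval₂ j w) = (G τ).eval (σ τ i w) := by
    intro τ i w
    rw [Polynomial.hom_eval₂, hG, Polynomial.eval_map]
    congr 1
    exact RingHom.ext fun y => hσj τ i y
  have hrelσ : ∀ τ i (w u v : L), GZ.eval₂ j w + j a ^ (d - 1) * (k : L) =
      j (a ^ (d - 2) * b) * u + j (a ^ (d - 2) * e) * v →
      (G τ).eval (σ τ i w) + A τ * (k : ℂ) = α τ * σ τ i u + β τ * σ τ i v := by
    intro τ i w u v h
    have h1 := congrArg (σ τ i) h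
    rw [map_add, map_add, map_mul (σ τ i) (j a ^ (d - 1)) (k : L),
      map_mul (σ τ i) (j (a ^ (d - 2) * b)) u, map_mul (σ τ i) (j (a ^ (d - 2) * e)) v, hσ, map_pow,
      hσj, hσj, hσj, map_intCast] at h1
    exact h1
  have hsz : ∀ τ i (m : ℕ), 1 / rf τ * |(k : ℝ)| ^ (1 / (d : ℝ)) ≤ ‖σ τ i (z m)‖ ∧
      ‖σ τ i (z m)‖ ≤ rf τ * |(k : ℝ)| ^ (1 / (d : ℝ)) ∧
      ‖(G τ).eval (σ τ i (z m)) + A τ * ((k : ℝ) : ℂ)‖ ≤
        (‖α τ‖ + ‖β τ‖) * rf τ * |(k : ℝ)| ^ (1 / (d : ℝ)) := by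
    intro τ i m
    refine hRr τ (k : ℝ) ((hRle τ).trans hk) (S.image (σ τ i)) ?_ (σ τ i (z m))
      (Finset.mem_image_of_mem _ (hzS m))
    intro w hw
    obtain ⟨w', hw', rfl⟩ := Finset.mem_image.1 hw
    obtain ⟨u, hu, v, hv, h⟩ := hSrel w' hw'
    refine ⟨σ τ i u, Finset.mem_image_of_mem _ hu, σ τ i v, Finset.mem_image_of_mem _ hv, ?_⟩
    have h2 : (((k : ℝ)) : ℂ) = (k : ℂ) := by push_cast; rfl
    rw [h2, hrelσ τ i w' u v h]
    calc ‖α τ * σ τ i u + β τ * σ τ i v‖ ≤ ‖α τ * σ τ i u‖ + ‖β τ * σ τ i v‖ := norm_add_le _ _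
      _ = ‖α τ‖ * ‖σ τ i u‖ + ‖β τ‖ * ‖σ τ i v‖ := by
        rw [norm_mul, norm_mul]
      _ ≤ ‖α τ‖ * max ‖σ τ i u‖ ‖σ τ i v‖ + ‖β τ‖ * max ‖σ τ i u‖ ‖σ τ i v‖ := by
        gcongr
        · exact le_max_left _ _
        · exact le_max_right _ _
      _ = (‖α τ‖ + ‖β τ‖) * max ‖σ τ i u‖ ‖σ τ i v‖ := by ring
  have hpow : 0 ≤ |(k : ℝ)| ^ (1 / (d : ℝ)) := by positivity
  refine ⟨Module.finrank K L, Module.finrank_pos, hLB, fun τ i m => σ τ i (z m), ?_⟩
  refine ⟨?_, ?_, ?_, ?_, ?_⟩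
  · intro τ i m
    refine le_trans ?_ (hsz τ i m).1
    apply mul_le_mul_of_nonneg_right _ hpow
    exact one_div_le_one_div_of_le (by linarith [hr1 τ]) (hrle τ)
  · intro τ i m
    refine (hsz τ i m).2.1.trans ?_
    exact mul_le_mul_of_nonneg_right (hrle τ) hpow
  · intro τ i m
    have h1 := (hsz τ i m).2.2
    have h2 : (((k : ℝ)) : ℂ) = (k : ℂ) := by push_cast; rfl
    rw [h2] at h1
    exact h1.trans (mul_le_mul_of_nonneg_right (hcle τ) hpow)
  · intro t m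
    obtain ⟨N, hN⟩ := hσN (z m) (hint _ (hzS m)) t
    exact ⟨N, fun τ => hN τ⟩
  · intro τ i
    exact hrelσ τ i (z 1) (z 2) (z 0) (hzrel 0)

end

end Pool.Agent.J4H72.HK
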